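import Pool.Agent.H11.KT.Targets

/-!
# Row F_IN of `elk_modules`: the cardinality of an intersection
-/

set_option autoImplicit false

namespace Pool.Agent.H1.KT

open Pool.Agent.H11.EL Pool.Agent.H11.KT
open scoped commutatorElement

theorem pf_IN : F_IN := by
  intro V _ _ U U'
  have h1 := U.card_mul_index
  have h2 := U'.card_mul_index
  have h3 := (U ⊓ U').card_mul_index
  have h4 : (U ⊓ U').index ≤ U.index * U'.index := AddSubgroup.index_inf_le
  have h5 : 0 < (U ⊓ U').index := Nat.pos_of_ne_zero AddSubgroup.index_ne_zero_of_finite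
  apply Nat.le_of_mul_le_mul_right _ h5
  calc Nat.card U * Nat.card U' * (U ⊓ U').index
      ≤ Nat.card U * Nat.card U' * (U.index * U'.index) := Nat.mul_le_mul_left _ h4
    _ = (Nat.card U * U.index) * (Nat.card U' * U'.index) := by ring
    _ = Nat.card V * Nat.card V := by rw [h1, h2]
    _ = Nat.card V * (Nat.card (U ⊓ U' : AddSubgroup V) * (U ⊓ U').index) := by rw [h3]
    _ = Nat.card V * Nat.card (U ⊓ U' : AddSubgroup V) * (U ⊓ U').index := by ring

end Pool.Agent.H1.KT
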